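import Pool.Agent.Helper14.ETC.V
import Pool.Agent.Helper44.ETC.O1235
import Pool.Agent.Helper39.ETC.G49
import Pool.Agent.Helper39.ETC.G1011
import Pool.Agent.Helper61.ETC.R5
import Pool.Agent.Helper31.ETC.R2
import Pool.Agent.Helper65.ETC.D56

/-! Block ETC-J1 (helper28): joint surjectivity on `H¹`. -/

set_option autoImplicit false
set_option linter.unusedSectionVars false

namespace Pool.Helper37.ETC

section J1Ch

variable {p : ℕ} {G : Type*} [Group G] [TopologicalSpace G]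

theorem J1.isCh_zero : IsCh (G := G) p (fun _ => 0) :=
  ⟨fun _ _ => by simp, IsLocallyConstant.const _⟩

theorem J1.isCh_add {χ ψ : G → ZMod p} (h : IsCh p χ) (h' : IsCh p ψ) :
    IsCh p (fun σ => χ σ + ψ σ) := by
  refine ⟨fun σ τ => ?_, ?_⟩
  · show χ (σ * τ) + ψ (σ * τ) = _
    rw [h.1, h'.1]; ring
  · exact h.2.add h'.2

theorem J1.isCh_mul {χ : G → ZMod p} (k : ZMod p) (h : IsCh p χ) :
    IsCh p (fun σ => k * χ σ) := by
  refine ⟨fun σ τ => ?_, ?_⟩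
  · show k * χ (σ * τ) = _
    rw [h.1]; ring
  · exact (IsLocallyConstant.const k).mul h.2

theorem J1.isCh_sum {ι : Type*} (s : Finset ι) {χ : ι → G → ZMod p} (h : ∀ i, IsCh p (χ i)) :
    IsCh p (fun σ => ∑ i ∈ s, χ i σ) := by
  classical
  induction s using Finset.induction_on with
  | empty => simpa using J1.isCh_zero (p := p) (G := G)
  | insert a s ha ih =>
    have := J1.isCh_add (h a) ih
    simpa [Finset.sum_insert ha] using this

end J1Ch

section J1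

variable {p : ℕ} [Fact p.Prime] {G K : Type*} [Group G] [TopologicalSpace G]
  [IsTopologicalGroup G] [CompactSpace G] [T2Space G] [TotallyDisconnectedSpace G] [Field K]
  [MulSemiringAction G K] {ζ : K}

theorem J1.mem_Fx {x : K} : x ∈ (Fx G : Set K) ↔ x ∈ Fxs G K := Iff.rfl

/-- a Kummer character of `x` vanishes at every `σ` fixing a `p`-th root of `x`. -/
theorem J1.kum_eq_zero (Gd : Good p G K ζ) {x : K} (hx : x ≠ 0) {θ : G → ZMod p}
    (hθ : IsKum ζ x θ) {y : K} (hy : y ^ p = x) {σ : G} (hσ : σ • y = y) : θ σ = 0 := by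
  have hp : p.Prime := Fact.out
  have hy0 : y ≠ 0 := by
    rintro rfl
    rw [zero_pow hp.ne_zero] at hy
    exact hx hy.symm
  have h1 := hθ y hy σ
  rw [hσ] at h1
  have h2 : ζ ^ (θ σ).val = 1 := by
    have : (ζ ^ (θ σ).val - 1) * y = 0 := by rw [sub_mul, ← h1]; ring
    rcases mul_eq_zero.1 this with h | h
    · exact sub_eq_zero.1 h
    · exact absurd h hy0
  have h3 := (Gd.prim.pow_eq_one_iff_dvd _).1 h2
  have h4 : (θ σ).val = 0 := Nat.eq_zero_of_dvd_of_lt h3 (ZMod.val_lt _)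
  exact (ZMod.val_eq_zero _).1 h4

theorem J1.res_ne_top (Gd : Good p G K ζ) (O : ValuationSubring K) (hO : O ≠ ⊤) :
    res G O ≠ ⊤ := fun h => hO (res_eq_top Gd.cont O h)

theorem J1.mem_res {O : ValuationSubring K} {x : Fxs G K} : x ∈ res G O ↔ (x : K) ∈ O :=
  Iff.rfl

/-- nonzero elements of the maximal ideal -/
theorem J1.exists_unif {F : Type*} [Field F] (Q : ValuationSubring F) (hQ : Q ≠ ⊤) :
    ∃ π : F, π ≠ 0 ∧ π ∈ Q ∧ π⁻¹ ∉ Q := by
  by_contra hcon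
  push Not at hcon
  apply hQ
  refine le_antisymm le_top fun x _ => ?_
  by_contra hx
  have hx0 : x ≠ 0 := by rintro rfl; exact hx Q.zero_mem
  have hxi : x⁻¹ ∈ Q := (Q.mem_or_inv_mem x).resolve_left hx
  have := hcon x⁻¹ (inv_ne_zero hx0) hxi
  rw [inv_inv] at this
  exact hx this

theorem J1.one_add_ne {F : Type*} [Field F] (Q : ValuationSubring F) {π t : F}
    (hπ0 : π ≠ 0) (hπ : π⁻¹ ∉ Q) (ht : t ∈ Q) : 1 + π * t ≠ 0 := by
  intro h
  apply hπ
  have : π⁻¹ = -t := by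
    field_simp
    linear_combination h
  rw [this]
  exact Q.neg_mem _ ht

/-- the `H¹`-surjectivity at the valuation rings. -/
theorem J1.partA (Gd : Good p G K ζ) (hfin : FinH1 p G) {n : ℕ}
    (O : Fin n → ValuationSubring K) (hO : ∀ i, O i ≠ ⊤)
    (hI : ∀ i j, i ≠ j → res G (O i) ⊔ res G (O j) = ⊤)
    (χ : (i : Fin n) → (Dec G (O i) → ZMod p)) (hχ : ∀ i, IsCh p (χ i)) :
    ∃ ψ : G → ZMod p, IsCh p ψ ∧ (∀ i (δ : Dec G (O i)), ψ δ = χ i δ) := by
  have h1 : ∀ i, ∃ ψ : G → ZMod p, IsCh p ψ ∧ ∀ δ : Dec G (O i), ψ δ = χ i δ :=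
    fun i => dec_ext Gd hfin (O i) (hO i) (χ i) (hχ i)
  choose ψ hψ hψ' using h1
  have h2 : ∀ i, ∃ a ∈ (Fx G : Set K), a ≠ 0 ∧ IsKum ζ a (ψ i) := fun i => kum_surj Gd (hψ i)
  choose a ha ha0 hka using h2
  have h3 : ∀ i, ∃ c ∈ (Fx G : Set K), c ≠ 0 ∧ ∀ x ∈ (Fx G : Set K), ∀ t ∈ O i, x = 1 + c * t →
      x ≠ 0 ∧ ∃ y, InCl (O i) (Fx G) y ∧ y ^ p = x := fun i => dec_open Gd hfin (O i) (hO i)
  choose d hd hd0 hdo using h3
  obtain ⟨x, hx⟩ := weak_approx (F := Fxs G K) (fun i => res G (O i))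
    (fun i => J1.res_ne_top Gd (O i) (hO i)) hI (fun i => ⟨a i, ha i⟩)
    (d := fun i => ⟨a i * d i, (Fxs G K).mul_mem (ha i) (hd i)⟩)
    (fun i h => by
      have := congrArg Subtype.val h
      exact mul_ne_zero (ha0 i) (hd0 i) this)
  choose t ht hxt using hx
  -- the quotients
  have hxv : ∀ i, (x : K) = a i * (1 + d i * (t i : K)) := by
    intro i
    have := congrArg Subtype.val (hxt i)
    simp only [Subfield.coe_add, Subfield.coe_mul] at this
    rw [this]; ring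
  have hFq : ∀ i, (1 + d i * (t i : K)) ∈ (Fx G : Set K) := by
    intro i
    exact (Fxs G K).add_mem (Fxs G K).one_mem ((Fxs G K).mul_mem (hd i) (t i).2)
  rcases Nat.eq_zero_or_pos n with rfl | hn
  · exact ⟨fun _ => 0, J1.isCh_zero, fun i => i.elim0⟩
  have hx0 : (x : K) ≠ 0 := by
    rw [hxv ⟨0, hn⟩]
    refine mul_ne_zero (ha0 _) ?_
    exact (hdo _ _ (hFq _) _ (ht _) rfl).1
  obtain ⟨ψ0, hψ0, hk0⟩ := kum_exists Gd (a := (x : K)) x.2 hx0
  refine ⟨ψ0, hψ0, fun i δ => ?_⟩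
  obtain ⟨hq0, y, hy, hyp⟩ := hdo i _ (hFq i) _ (ht i) rfl
  obtain ⟨θ, hθ, hkθ⟩ := kum_exists Gd (hFq i) hq0
  have hk := kum_mul Gd (ha0 i) hq0 (hka i) hkθ
  rw [← hxv i] at hk
  have := kum_unique Gd hx0 hk0 hk
  rw [this]
  show ψ i δ + θ δ = _
  rw [hψ' i δ, J1.kum_eq_zero Gd hq0 hkθ hyp (δ.2 y hy), add_zero]

theorem J1.pc_ne {c : G} {x : K} (h : x ∈ (Pc c : Set K)) : x ≠ 0 := h.1

theorem J1.pc_mul {c : G} {x y : K} (h : x ∈ (Pc c : Set K)) (h' : y ∈ (Pc c : Set K)) :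
    x * y ∈ (Pc c : Set K) := by
  obtain ⟨hx, u, hu, hux⟩ := h
  obtain ⟨hy, v, hv, hvy⟩ := h'
  exact ⟨mul_ne_zero hx hy, u * v, by rw [smul_mul', hu, hv], by rw [mul_pow, hux, hvy]⟩

theorem J1.pc_one {c : G} : (1 : K) ∈ (Pc c : Set K) :=
  ⟨one_ne_zero, 1, smul_one c, one_pow 2⟩

theorem J1.pc_sq {c : G} {w : K} (hw : w ≠ 0) (hcw : c • w = w) : w ^ 2 ∈ (Pc c : Set K) :=
  ⟨pow_ne_zero 2 hw, w, hcw, rfl⟩

theorem J1.pc_inv {c : G} {x : K} (h : x ∈ (Pc c : Set K)) : x⁻¹ ∈ (Pc c : Set K) := by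
  obtain ⟨hx, u, hu, hux⟩ := h
  exact ⟨inv_ne_zero hx, u⁻¹, by rw [smul_inv'', hu], by rw [inv_pow, hux]⟩

/-- the value of a Kummer character at an involution. -/
theorem J1.kum_pos (Gd : Good 2 G K ζ) {c : G} {x : K} (hx : x ∈ (Pc c : Set K))
    {θ : G → ZMod 2} (hθ : IsKum ζ x θ) : θ c = 0 := by
  obtain ⟨hx0, y, hy, hyx⟩ := hx
  haveI : Fact (Nat.Prime 2) := ⟨Nat.prime_two⟩
  exact J1.kum_eq_zero Gd hx0 hθ hyx hy

theorem J1.kum_neg (Gd : Good 2 G K ζ) {c : G} (hc : c * c = 1) (hc1 : c ≠ 1) {x : K}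
    (hx : -x ∈ (Pc c : Set K)) {θ : G → ZMod 2} (hθ : IsKum ζ x θ) : θ c = 1 := by
  obtain ⟨hx0, y, hy, hyx⟩ := hx
  obtain ⟨i, hi, hci⟩ := (involution_struct Gd c hc hc1).2.2.2
  have h0 : θ c ≠ 0 := by
    intro h0
    have h1 := hθ (i * y) (by rw [mul_pow, hi, hyx]; ring) c
    rw [h0, ZMod.val_zero, pow_zero, one_mul, smul_mul', hci, hy] at h1
    have hy0 : y ≠ 0 := by
      rintro rfl
      apply hx0
      rw [← hyx]; ring
    have hi0 : i ≠ 0 := by
      rintro rfl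
      norm_num at hi
    have h2 : (2 : K) = 0 := by
      have : (2 : K) * (i * y) = 0 := by linear_combination -h1
      rcases mul_eq_zero.1 this with h | h
      · exact h
      · exact absurd h (mul_ne_zero hi0 hy0)
    -- characteristic two contradicts the primitive root
    have h3 := Gd.prim
    have h4 : ζ ^ 2 = 1 := h3.pow_eq_one
    have h5 : ζ ≠ 1 := h3.ne_one (by norm_num)
    apply h5
    have : (ζ - 1) ^ 2 = 0 := by linear_combination h4 - (ζ - 1) * h2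
    exact sub_eq_zero.1 (pow_eq_zero_iff (by norm_num) |>.1 this)
  generalize θ c = v at h0
  revert h0
  revert v
  decide

/-- separation of the archimedean orderings by characters trivial at the valuation rings. -/
theorem J1.partB (Gd : Good 2 G K ζ) (hfin : FinH1 2 G) {n m : ℕ}
    (O : Fin n → ValuationSubring K) (hO : ∀ i, O i ≠ ⊤)
    (hI : ∀ i j, i ≠ j → res G (O i) ⊔ res G (O j) = ⊤) (c : Fin m → G)
    (hc : ∀ j, c j * c j = 1 ∧ c j ≠ 1 ∧ ArchInv K (c j))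
    (hd : ∀ i j, i ≠ j → ∃ x ∈ (Fx G : Set K), x ∈ (Pc (c i) : Set K) ∧
      x ∉ (Pc (c j) : Set K)) (j : Fin m) :
    ∃ θ : G → ZMod 2, IsCh 2 θ ∧ (∀ i (δ : Dec G (O i)), θ δ = 0) ∧
      ∀ i, θ (c i) = if i = j then 1 else 0 := by
  obtain ⟨u, hu, huj, hui⟩ := exists_sep Gd c hc j (fun i hij => hd i j hij)
  have hu0 : u ≠ 0 := by
    intro h
    apply J1.pc_ne huj
    rw [h, neg_zero]
  have h3 : ∀ i, ∃ c ∈ (Fx G : Set K), c ≠ 0 ∧ ∀ x ∈ (Fx G : Set K), ∀ t ∈ O i, x = 1 + c * t →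
      x ≠ 0 ∧ ∃ y, InCl (O i) (Fx G) y ∧ y ^ 2 = x := fun i => dec_open Gd hfin (O i) (hO i)
  choose d hdF hd0 hdo using h3
  -- a small nonzero element `w`
  have h4 : ∃ w ∈ (Fx G : Set K), w ≠ 0 ∧ ∀ i, ∃ t ∈ O i, u * w ^ 2 = d i * t := by
    have he : ∀ i, ∃ e : Fxs G K, e ≠ 0 ∧ ∃ t ∈ O i, u * (e : K) ^ 2 = d i * t := by
      intro i
      rcases (O i).mem_or_inv_mem (d i / u) with h | h
      · refine ⟨⟨d i / u, (Fxs G K).div_mem (hdF i) hu⟩, ?_, d i / u, h, ?_⟩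
        · intro h0
          have := congrArg Subtype.val h0
          exact div_ne_zero (hd0 i) hu0 this
        · show u * (d i / u) ^ 2 = _
          field_simp
      · refine ⟨1, one_ne_zero, u / d i, ?_, ?_⟩
        · rwa [inv_div] at h
        · show u * ((1 : Fxs G K) : K) ^ 2 = _
          have := hd0 i
          rw [Subfield.coe_one]
          field_simp
    choose e he0 s hs hse using he
    have hπ : ∀ i, ∃ π : Fxs G K, π ≠ 0 ∧ π ∈ res G (O i) ∧ π⁻¹ ∉ res G (O i) :=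
      fun i => J1.exists_unif _ (J1.res_ne_top Gd (O i) (hO i))
    choose π hπ0 hπm hπn using hπ
    rcases Nat.eq_zero_or_pos n with rfl | hn
    · exact ⟨1, (Fxs G K).one_mem, one_ne_zero, fun i => i.elim0⟩
    obtain ⟨x, hx⟩ := weak_approx (F := Fxs G K) (fun i => res G (O i))
      (fun i => J1.res_ne_top Gd (O i) (hO i)) hI e (d := fun i => e i * π i)
      (fun i => mul_ne_zero (he0 i) (hπ0 i))
    choose t ht hxt using hx
    have hxe : ∀ i, x = e i * (1 + π i * t i) := by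
      intro i; rw [hxt i]; ring
    refine ⟨x, x.2, ?_, fun i => ?_⟩
    · intro h0
      have h0' : x = 0 := Subtype.ext h0
      rw [hxe ⟨0, hn⟩] at h0'
      exact mul_ne_zero (he0 _) (J1.one_add_ne _ (hπ0 _) (hπn _) (ht _)) h0'
    · have hv : (x : K) = (e i : K) * (1 + (π i : K) * (t i : K)) := by
        have := congrArg Subtype.val (hxe i)
        simpa using this
      refine ⟨s i * (1 + (π i : K) * (t i : K)) ^ 2, ?_, ?_⟩
      · refine (O i).mul_mem _ _ (hs i) ((O i).toSubring.pow_mem ?_ 2)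
        exact (O i).add_mem _ _ (O i).one_mem ((O i).mul_mem _ _ (hπm i) (ht i))
      · rw [hv]
        linear_combination (1 + (π i : K) * (t i : K)) ^ 2 * hse i
  obtain ⟨w, hw, hw0, hwt⟩ := h4
  -- the archimedean property at `c j`
  have hcj := hc j
  have hst := involution_struct Gd (c j) hcj.1 hcj.2.1
  have huw : -(u * w ^ 2) ∈ (Pc (c j) : Set K) := by
    have := J1.pc_mul huj (J1.pc_sq hw0 (hw (c j)))
    rwa [neg_mul] at this
  have hx : c j • (-(u * w ^ 2))⁻¹ = (-(u * w ^ 2))⁻¹ := by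
    rw [smul_inv'', smul_neg, smul_mul', smul_pow', hu (c j), hw (c j)]
  obtain ⟨N, hN⟩ := hcj.2.2 _ hx
  have hNpos : (N : K) ∈ (Pc (c j) : Set K) := by
    have := hst.1 _ hN _ (J1.pc_inv huw)
    rwa [sub_add_cancel] at this
  have hN0 : (N : K) ≠ 0 := J1.pc_ne hNpos
  have hN1 : N ≠ 0 := by rintro rfl; simp at hN0
  -- natural numbers are positive or zero
  have hnat : ∀ (i : Fin m) (k : ℕ), ((k + 1 : ℕ) : K) ∈ (Pc (c i) : Set K) := by
    intro i k
    have hsti := involution_struct Gd (c i) (hc i).1 (hc i).2.1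
    induction k with
    | zero => simpa using J1.pc_one (c := c i) (K := K)
    | succ k ih =>
      have := hsti.1 _ ih _ J1.pc_one
      simpa using this
  set b : K := 1 + u * (N * w) ^ 2 with hb
  have hbF : b ∈ (Fx G : Set K) := by
    refine (Fxs G K).add_mem (Fxs G K).one_mem ((Fxs G K).mul_mem hu
      ((Fxs G K).pow_mem ((Fxs G K).mul_mem ?_ hw) 2))
    exact natCast_mem (Fxs G K) N
  have hbneg : -b ∈ (Pc (c j) : Set K) := by
    -- `-b = (-(u w²)) * (N² - x)`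
    have hN2 : (N : K) ^ 2 - (-(u * w ^ 2))⁻¹ ∈ (Pc (c j) : Set K) := by
      rcases Nat.lt_or_ge 1 N with h1 | h1
      · have h2 : (N : K) ^ 2 - N ∈ (Pc (c j) : Set K) := by
          obtain ⟨k, rfl⟩ : ∃ k, N = k + 2 := ⟨N - 2, by omega⟩
          have h3 := J1.pc_mul (hnat j (k + 1)) (hnat j k)
          have h4 : ((k + 2 : ℕ) : K) ^ 2 - ((k + 2 : ℕ) : K) =
              ((k + 1 + 1 : ℕ) : K) * ((k + 1 : ℕ) : K) := by
            push_cast; ring
          rw [h4]; exact h3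
        have := hst.1 _ h2 _ hN
        have h5 : (N : K) ^ 2 - N + (N - (-(u * w ^ 2))⁻¹) = (N : K) ^ 2 - (-(u * w ^ 2))⁻¹ := by
          ring
        rwa [h5] at this
      · have : N = 1 := by omega
        subst this
        simpa using hN
    have h6 := J1.pc_mul huw hN2
    have huw0 : -(u * w ^ 2) ≠ 0 := J1.pc_ne huw
    have h7 : -(u * w ^ 2) * ((N : K) ^ 2 - (-(u * w ^ 2))⁻¹) = -b := by
      rw [mul_sub, mul_inv_cancel₀ huw0, hb]; ring
    rwa [h7] at h6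
  have hbpos : ∀ i, i ≠ j → b ∈ (Pc (c i) : Set K) := by
    intro i hij
    have hsti := involution_struct Gd (c i) (hc i).1 (hc i).2.1
    have hNw : (N : K) * w ≠ 0 := mul_ne_zero hN0 hw0
    have hNwc : c i • ((N : K) * w) = (N : K) * w := by
      rw [smul_mul', hw (c i)]
      congr 1
      exact (natCast_mem (Fxs G K) N) (c i)
    exact hsti.1 _ J1.pc_one _ (J1.pc_mul (hui i hij) (J1.pc_sq hNw hNwc))
  have hb0 : b ≠ 0 := by
    have := J1.pc_ne hbneg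
    simpa using this
  obtain ⟨θ, hθ, hkθ⟩ := kum_exists Gd hbF hb0
  refine ⟨θ, hθ, fun i δ => ?_, fun i => ?_⟩
  · obtain ⟨t, ht, hwt'⟩ := hwt i
    have hNO : (N : K) ^ 2 * t ∈ O i :=
      (O i).mul_mem _ _ ((O i).toSubring.pow_mem (natCast_mem (O i) N) 2) ht
    obtain ⟨-, y, hy, hyb⟩ := hdo i b hbF _ hNO (by
      rw [hb]; linear_combination (N : K) ^ 2 * hwt')
    exact J1.kum_eq_zero Gd hb0 hkθ hyb (δ.2 y hy)
  · split_ifs with h
    · subst h
      exact J1.kum_neg Gd (hc i).1 (hc i).2.1 hbneg hkθ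
    · exact J1.kum_pos Gd (hbpos i h) hkθ

/-- there are involutions only for `p = 2`. -/
theorem J1.eq_two (Gd : Good p G K ζ) (c : G) (hc : c * c = 1) (hc1 : c ≠ 1) : p = 2 := by
  have hp : p.Prime := Fact.out
  by_contra h2
  apply hc1
  apply Gd.faith
  intro x
  obtain ⟨k, hk⟩ := Gd.tors c x
  have hodd : Odd (p ^ k) := (hp.odd_of_ne_two h2).pow
  obtain ⟨l, hl⟩ := hodd
  rw [hl, pow_succ, pow_mul, pow_two, hc, one_pow, one_mul] at hk
  exact hk

/-- J1 (joint surjectivity on `H¹`; uses D5, D6, V3, R5, kum) -/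
theorem joint (Gd : Good p G K ζ) (hfin : FinH1 p G) {n m : ℕ}
    (O : Fin n → ValuationSubring K) (hO : ∀ i, O i ≠ ⊤)
    (hI : ∀ i j, i ≠ j → res G (O i) ⊔ res G (O j) = ⊤) (c : Fin m → G)
    (hc : ∀ j, c j * c j = 1 ∧ c j ≠ 1 ∧ ArchInv K (c j))
    (hd : ∀ i j, i ≠ j → ∃ x ∈ (Fx G : Set K), x ∈ (Pc (c i) : Set K) ∧
      x ∉ (Pc (c j) : Set K))
    (χ : (i : Fin n) → (Dec G (O i) → ZMod p)) (hχ : ∀ i, IsCh p (χ i)) (ε : Fin m → ZMod p) :
    ∃ ψ : G → ZMod p, IsCh p ψ ∧ (∀ i (δ : Dec G (O i)), ψ δ = χ i δ) ∧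
      ∀ j, ψ (c j) = ε j := by
  obtain ⟨ψ0, hψ0, hψ0'⟩ := J1.partA Gd hfin O hO hI χ hχ
  rcases Nat.eq_zero_or_pos m with rfl | hm
  · exact ⟨ψ0, hψ0, hψ0', fun j => j.elim0⟩
  have hp2 : p = 2 := J1.eq_two Gd (c ⟨0, hm⟩) (hc _).1 (hc _).2.1
  subst hp2
  have hB := J1.partB Gd hfin O hO hI c hc hd
  choose θ hθ hθO hθc using hB
  refine ⟨fun σ => ψ0 σ + ∑ j, (ε j - ψ0 (c j)) * θ j σ, ?_, ?_, ?_⟩
  · exact J1.isCh_add hψ0 (J1.isCh_sum _ fun j => J1.isCh_mul _ (hθ j))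
  · intro i δ
    have : ∑ j, (ε j - ψ0 (c j)) * θ j δ = 0 :=
      Finset.sum_eq_zero fun j _ => by rw [hθO j i δ, mul_zero]
    show ψ0 δ + _ = _
    rw [this, add_zero, hψ0' i δ]
  · intro i
    have : ∑ j, (ε j - ψ0 (c j)) * θ j (c i) = ε i - ψ0 (c i) := by
      rw [Finset.sum_eq_single i]
      · rw [hθc i i, if_pos rfl, mul_one]
      · intro j _ hji
        rw [hθc j i, if_neg (fun h => hji h.symm), mul_zero]
      · intro h; exact absurd (Finset.mem_univ i) h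
    show ψ0 (c i) + _ = _
    rw [this]; ring

end J1

end Pool.Helper37.ETC
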