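import Pool.Agent.Helper28.ETC.J2a
import Pool.Agent.Helper7.ETC.H2

/-! Block ETC-J2 (helper28): the local family. -/

set_option autoImplicit false
set_option linter.unusedSectionVars false

namespace Pool.Helper37.ETC

section J2T

variable {p : ℕ} [Fact p.Prime] {G K : Type} [Group G] [TopologicalSpace G]
  [IsTopologicalGroup G] [CompactSpace G] [T2Space G] [TotallyDisconnectedSpace G] [Field K]
  [MulSemiringAction G K] {ζ : K}

/-- J2 (THEOREM C; uses J1, F4, F5, H2, D7, R3, R4, D3) -/
theorem local_family (Gd : Good p G K ζ) (hfin : FinH1 p G) :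
    ∃ (n : ℕ) (H : Fin n → Subgroup G), (∀ i, IsClosed (H i : Set G)) ∧ Univ p H ∧
      (∀ i, (∃ O : ValuationSubring K, O ≠ ⊤ ∧ H i = Dec G O) ∨
        (∃ g : G, g ≠ 1 ∧ H i = (Subgroup.zpowers g).topologicalClosure)) :=
  J2.local_family_of Gd hfin (fun hc hv ho => hp Gd hfin hc hv ho)

end J2T

end Pool.Helper37.ETC
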