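import Pool.Agent.Helper28.ETC.J1
import Pool.Agent.Helper88.ETC.F123
import Pool.Agent.Helper39.ETC.G49
import Pool.Agent.Helper29.ETC.D1234
import Pool.Agent.Helper50.ETC.F4
import Pool.Agent.Helper30.ETC.F5
import Pool.Agent.Helper61.ETC.D7
import Pool.Agent.Helper87.ETC.R4
import Pool.Agent.Helper87.ETC.R3

/-! Block ETC-J2 (helper28): the local family, with the Hasse principle `hp` as a hypothesis
(`local_family_of`); the block itself is `J2.lean`. -/

set_option autoImplicit false
set_option linter.unusedSectionVars false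

namespace Pool.Helper37.ETC

section J2

variable {p : ℕ} [Fact p.Prime] {G K : Type*} [Group G] [TopologicalSpace G]
  [IsTopologicalGroup G] [CompactSpace G] [T2Space G] [TotallyDisconnectedSpace G] [Field K]
  [MulSemiringAction G K] {ζ : K}

/-- restriction along a continuous homomorphism. -/
theorem J2.isCh_comp {H H' : Type*} [Group H] [TopologicalSpace H] [Group H']
    [TopologicalSpace H'] (f : H →* H') (hf : Continuous f) {χ : H' → ZMod p} (h : IsCh p χ) :
    IsCh p (fun x => χ (f x)) := by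
  refine ⟨fun σ τ => ?_, ?_⟩
  · show χ (f (σ * τ)) = _
    rw [map_mul, h.1]
  · exact h.2.comp_continuous hf

theorem J2.isCh_one {H : Type*} [Group H] [TopologicalSpace H] {χ : H → ZMod p}
    (h : IsCh p χ) : χ 1 = 0 := by
  have := h.1 1 1
  rw [mul_one] at this
  exact left_eq_add.1 this

/-- conjugation acts trivially on `H²`. -/
theorem J2.cob_conj {c : G → G → ZMod p} (hc : IsCoc p c) (H₁ H₂ : Subgroup G) (g : G)
    (h : ∀ σ ∈ H₂, g⁻¹ * σ * g ∈ H₁) (h1 : IsCob p (fun σ τ : H₁ => c σ τ)) :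
    IsCob p (fun σ τ : H₂ => c σ τ) := by
  obtain ⟨f, hf, hfe⟩ := h1
  have hcont : Continuous (fun σ : H₂ => (⟨g⁻¹ * (σ : G) * g, h σ σ.2⟩ : H₁)) := by
    refine Continuous.subtype_mk ?_ _
    fun_prop
  refine ⟨fun σ => f ⟨g⁻¹ * (σ : G) * g, h σ σ.2⟩ -
    (c g (g⁻¹ * (σ : G) * g) - c σ g), ?_, fun σ τ => ?_⟩
  · refine (hf.comp_continuous hcont).sub (IsLocallyConstant.sub ?_ ?_)
    · have : Continuous (fun σ : H₂ => ((g, g⁻¹ * (σ : G) * g) : G × G)) := by fun_prop
      exact hc.2.comp_continuous this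
    · have : Continuous (fun σ : H₂ => (((σ : G), g) : G × G)) := by fun_prop
      exact hc.2.comp_continuous this
  · obtain ⟨σ, hσ⟩ := σ
    obtain ⟨τ, hτ⟩ := τ
    have e1 := hfe ⟨g⁻¹ * σ * g, h σ hσ⟩ ⟨g⁻¹ * τ * g, h τ hτ⟩
    have e2 : (⟨g⁻¹ * σ * g, h σ hσ⟩ * ⟨g⁻¹ * τ * g, h τ hτ⟩ : H₁) =
        ⟨g⁻¹ * (σ * τ) * g, h _ (H₂.mul_mem hσ hτ)⟩ := by
      apply Subtype.ext
      show g⁻¹ * σ * g * (g⁻¹ * τ * g) = g⁻¹ * (σ * τ) * g
      group
    rw [e2] at e1
    dsimp only at e1
    have c1 := hc.1 g (g⁻¹ * σ * g) (g⁻¹ * τ * g)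
    have c2 := hc.1 σ g (g⁻¹ * τ * g)
    have c3 := hc.1 σ τ g
    have e3 : g * (g⁻¹ * σ * g) = σ * g := by group
    have e4 : g * (g⁻¹ * τ * g) = τ * g := by group
    have e5 : g⁻¹ * σ * g * (g⁻¹ * τ * g) = g⁻¹ * (σ * τ) * g := by group
    rw [e3, e5] at c1
    rw [e4] at c2
    show c σ τ = (f ⟨g⁻¹ * σ * g, _⟩ - (c g (g⁻¹ * σ * g) - c σ g)) +
      (f ⟨g⁻¹ * τ * g, _⟩ - (c g (g⁻¹ * τ * g) - c τ g)) -
      (f ⟨g⁻¹ * (σ * τ) * g, _⟩ - (c g (g⁻¹ * (σ * τ) * g) - c (σ * τ) g))
    linear_combination e1 - c1 + c2 - c3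

theorem J2.cob_mono {c : G → G → ZMod p} (hc : IsCoc p c) {H₁ H₂ : Subgroup G}
    (h : H₂ ≤ H₁) (h1 : IsCob p (fun σ τ : H₁ => c σ τ)) :
    IsCob p (fun σ τ : H₂ => c σ τ) :=
  J2.cob_conj hc H₁ H₂ 1 (fun σ hσ => by simpa using h hσ) h1

theorem J2.cob_bot {c : G → G → ZMod p} : IsCob p (fun σ τ : (⊥ : Subgroup G) => c σ τ) := by
  refine ⟨fun _ => c 1 1, IsLocallyConstant.const _, fun σ τ => ?_⟩
  have h1 : (σ : G) = 1 := Subgroup.mem_bot.1 σ.2
  have h2 : (τ : G) = 1 := Subgroup.mem_bot.1 τ.2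
  show c σ τ = _
  rw [h1, h2]; ring

/-- the closure of a subgroup of order two. -/
theorem J2.mem_closure_invol {c : G} (hc : c * c = 1) {x : G}
    (hx : x ∈ (Subgroup.zpowers c).topologicalClosure) : x = 1 ∨ x = c := by
  have hsub : ((Subgroup.zpowers c : Subgroup G) : Set G) ⊆ {1, c} := by
    intro y hy
    obtain ⟨k, rfl⟩ := hy
    show c ^ k ∈ _
    rcases Int.even_or_odd k with ⟨l, hl⟩ | ⟨l, hl⟩
    · left
      rw [hl, ← two_mul, zpow_mul, zpow_ofNat, pow_two, hc, one_zpow]
    · right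
      rw [hl, zpow_add, zpow_mul, zpow_ofNat, pow_two, hc, one_zpow, one_mul, zpow_one]
      rfl
  have hcl : IsClosed (({1, c} : Set G)) := (Set.toFinite _).isClosed
  have : x ∈ closure ((Subgroup.zpowers c : Subgroup G) : Set G) := hx
  have := closure_minimal hsub hcl this
  simpa using this

/-- admissible families of valuation rings. -/
def J2.VF (G : Type*) (K : Type*) [Group G] [Field K] [MulSemiringAction G K] (n : ℕ) : Prop :=
  ∃ O : Fin n → ValuationSubring K, (∀ i, O i ≠ ⊤) ∧ (∀ i, Dec G (O i) ≠ ⊥) ∧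
    ∀ i j, i ≠ j → res G (O i) ⊔ res G (O j) = ⊤

/-- admissible families of archimedean involutions. -/
def J2.IF (G : Type*) (K : Type*) [Group G] [Field K] [MulSemiringAction G K] (m : ℕ) : Prop :=
  ∃ c : Fin m → G, (∀ j, c j * c j = 1 ∧ c j ≠ 1 ∧ ArchInv K (c j)) ∧
    ∀ i j, i ≠ j → ∃ x ∈ (Fx G : Set K), x ∈ (Pc (c i) : Set K) ∧ x ∉ (Pc (c j) : Set K)

theorem J2.card_bound (hfin : FinH1 p G) (n : ℕ)
    (ψ : (Fin n → ZMod p) → G → ZMod p) (h : ∀ T, IsCh p (ψ T))
    (hinj : Function.Injective ψ) : n ≤ Nat.card {χ : G → ZMod p | IsCh p χ} := by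
  haveI : Finite {χ : G → ZMod p | IsCh p χ} := hfin
  have hp : p.Prime := Fact.out
  have h1 : Nat.card (Fin n → ZMod p) ≤ Nat.card {χ : G → ZMod p | IsCh p χ} := by
    refine Nat.card_le_card_of_injective (fun T => (⟨ψ T, h T⟩ : {χ : G → ZMod p | IsCh p χ})) ?_
    intro S T hST
    exact hinj (congrArg Subtype.val hST)
  have h2 : Nat.card (Fin n → ZMod p) = p ^ n := by
    rw [Nat.card_eq_fintype_card, Fintype.card_fun, ZMod.card, Fintype.card_fin]
  rw [h2] at h1
  exact ((Nat.lt_pow_self hp.one_lt).le).trans h1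

theorem J2.vf_bound (Gd : Good p G K ζ) (hfin : FinH1 p G) (n : ℕ) (h : J2.VF G K n) :
    n ≤ Nat.card {χ : G → ZMod p | IsCh p χ} := by
  obtain ⟨O, hO, hD, hI⟩ := h
  have h1 : ∀ i, ∃ χ : Dec G (O i) → ZMod p, IsCh p χ ∧ ∃ σ, χ σ ≠ 0 := by
    intro i
    have hcl := dec_closed Gd.cont (O i)
    haveI : CompactSpace (Dec G (O i)) := isCompact_iff_compactSpace.1 hcl.isCompact
    have hPP : PP p (Dec G (O i)) := (Gd.sub (Dec G (O i))).pp
    have hne : (⊥ : Subgroup (Dec G (O i))) ≠ ⊤ := by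
      intro hbt
      apply hD i
      rw [eq_bot_iff]
      intro x hx
      have : (⟨x, hx⟩ : Dec G (O i)) ∈ (⊥ : Subgroup (Dec G (O i))) := by
        rw [hbt]; trivial
      rw [Subgroup.mem_bot] at this ⊢
      exact congrArg Subtype.val this
    obtain ⟨χ, hχ, hσ, -⟩ := exists_ch hPP ⊥ (by
      rw [Subgroup.coe_bot]; exact isClosed_singleton) hne
    exact ⟨χ, hχ, hσ⟩
  choose χ hχ σ hσ using h1
  have h2 : ∀ T : Fin n → ZMod p, ∃ ψ : G → ZMod p, IsCh p ψ ∧
      ∀ i (δ : Dec G (O i)), ψ δ = T i * χ i δ := by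
    intro T
    obtain ⟨ψ, hψ, h, -⟩ := joint Gd hfin O hO hI (m := 0) (fun j => j.elim0)
      (fun j => j.elim0) (fun j => j.elim0) (fun i δ => T i * χ i δ)
      (fun i => J1.isCh_mul (T i) (hχ i)) (fun j => j.elim0)
    exact ⟨ψ, hψ, h⟩
  choose ψ hψ hψe using h2
  refine J2.card_bound hfin n ψ hψ ?_
  intro S T hST
  funext i
  have e1 := hψe S i (σ i)
  have e2 := hψe T i (σ i)
  rw [hST, e2] at e1
  exact (mul_right_cancel₀ (hσ i) e1).symm

theorem J2.if_bound (Gd : Good p G K ζ) (hfin : FinH1 p G) (m : ℕ) (h : J2.IF G K m) :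
    m ≤ Nat.card {χ : G → ZMod p | IsCh p χ} := by
  obtain ⟨c, hc, hd⟩ := h
  have h2 : ∀ T : Fin m → ZMod p, ∃ ψ : G → ZMod p, IsCh p ψ ∧ ∀ j, ψ (c j) = T j := by
    intro T
    obtain ⟨ψ, hψ, -, h⟩ := joint Gd hfin (n := 0) (fun i => i.elim0) (fun i => i.elim0)
      (fun i => i.elim0) c hc hd (fun i => i.elim0) (fun i => i.elim0) T
    exact ⟨ψ, hψ, h⟩
  choose ψ hψ hψe using h2
  refine J2.card_bound hfin m ψ hψ ?_
  intro S T hST
  funext j
  rw [← hψe S j, hST, hψe T j]

theorem J2.exists_max (A : ℕ → Prop) (h0 : A 0) (B : ℕ) (hB : ∀ n, A n → n ≤ B) :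
    ∃ n, A n ∧ ¬ A (n + 1) := by
  by_contra hcon
  push Not at hcon
  have : ∀ n, A n := by
    intro n
    induction n with
    | zero => exact h0
    | succ k ih => exact hcon k ih
  have := hB _ (this (B + 1))
  omega

end J2

section J2T

variable {p : ℕ} [Fact p.Prime] {G K : Type} [Group G] [TopologicalSpace G]
  [IsTopologicalGroup G] [CompactSpace G] [T2Space G] [TotallyDisconnectedSpace G] [Field K]
  [MulSemiringAction G K] {ζ : K}

/-- J2 (THEOREM C; uses J1, F4, F5, H2, D7, R3, R4, D3), from the Hasse principle -/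
theorem J2.local_family_of (Gd : Good p G K ζ) (hfin : FinH1 p G)
    (HP : ∀ {c : G → G → ZMod p}, IsCoc p c →
      (∀ O : ValuationSubring K, O ≠ ⊤ → IsCob p (fun σ τ : Dec G O => c σ τ)) →
      (∀ g : G, g * g = 1 → g ≠ 1 → IsCob p (fun σ τ : Subgroup.zpowers g => c σ τ)) →
      IsCob p c) :
    ∃ (n : ℕ) (H : Fin n → Subgroup G), (∀ i, IsClosed (H i : Set G)) ∧ Univ p H ∧
      (∀ i, (∃ O : ValuationSubring K, O ≠ ⊤ ∧ H i = Dec G O) ∨
        (∃ g : G, g ≠ 1 ∧ H i = (Subgroup.zpowers g).topologicalClosure)) := by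
  obtain ⟨n, ⟨O, hO, hD, hI⟩, hn⟩ := J2.exists_max (J2.VF G K)
    ⟨fun i => i.elim0, fun i => i.elim0, fun i => i.elim0, fun i => i.elim0⟩ _
    (J2.vf_bound Gd hfin)
  obtain ⟨m, ⟨c, hc, hd⟩, hm⟩ := J2.exists_max (J2.IF G K)
    ⟨fun i => i.elim0, fun i => i.elim0, fun i => i.elim0⟩ _
    (J2.if_bound Gd hfin)
  obtain ⟨H0, hH0⟩ : ∃ H0 : Fin (n + m) → Subgroup G,
      H0 = Fin.addCases (fun i => Dec G (O i))
        (fun j => (Subgroup.zpowers (c j)).topologicalClosure) := ⟨_, rfl⟩
  have hL : ∀ i, H0 (Fin.castAdd m i) = Dec G (O i) := by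
    intro i; rw [hH0]; simp only [Fin.addCases_left]
  have hR : ∀ j, H0 (Fin.natAdd n j) = (Subgroup.zpowers (c j)).topologicalClosure := by
    intro j; rw [hH0]; simp only [Fin.addCases_right]
  clear hH0
  have hsurj : ∀ χ : (i : Fin (n + m)) → (H0 i → ZMod p), (∀ i, IsCh p (χ i)) →
      ∃ ψ : G → ZMod p, IsCh p ψ ∧ ∀ i (x : H0 i), ψ x = χ i x := by
    intro χ hχ
    obtain ⟨ψ, hψ, h1, h2⟩ := joint Gd hfin O hO hI c hc hd
      (fun i δ => χ (Fin.castAdd m i) (Subgroup.inclusion (hL i).symm.le δ))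
      (fun i => J2.isCh_comp _ (Continuous.subtype_mk continuous_subtype_val _) (hχ _))
      (fun j => χ (Fin.natAdd n j) ⟨c j, by
        rw [hR j]
        exact Subgroup.le_topologicalClosure _ (Subgroup.mem_zpowers _)⟩)
    refine ⟨ψ, hψ, fun i => ?_⟩
    induction i using Fin.addCases with
    | left i =>
      intro x
      have hx : (x : G) ∈ Dec G (O i) := by rw [← hL i]; exact x.2
      exact h1 i ⟨x, hx⟩
    | right j =>
      intro x
      have hx : (x : G) ∈ (Subgroup.zpowers (c j)).topologicalClosure := by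
        rw [← hR j]; exact x.2
      rcases J2.mem_closure_invol (hc j).1 hx with h | h
      · have : x = 1 := Subtype.ext h
        rw [this]
        rw [J2.isCh_one (hχ _)]
        exact J2.isCh_one hψ
      · have h3 := h2 j
        have : x = ⟨c j, by
          rw [hR j]
          exact Subgroup.le_topologicalClosure _ (Subgroup.mem_zpowers _)⟩ := Subtype.ext h
        rw [this]
        exact h3
  obtain ⟨l, g, hg, hcomp⟩ := exists_compl hfin H0 hsurj
  obtain ⟨H, hH⟩ : ∃ H : Fin (n + m + l) → Subgroup G,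
      H = Fin.addCases H0 (fun j => (Subgroup.zpowers (g j)).topologicalClosure) := ⟨_, rfl⟩
  have hHL : ∀ i, H (Fin.castAdd l i) = H0 i := by
    intro i; rw [hH]; simp only [Fin.addCases_left]
  have hHR : ∀ j, H (Fin.natAdd (n + m) j) = (Subgroup.zpowers (g j)).topologicalClosure := by
    intro j; rw [hH]; simp only [Fin.addCases_right]
  clear hH
  have h1 := hcomp H hHL hHR
  -- types
  have hT : ∀ i, (∃ O : ValuationSubring K, O ≠ ⊤ ∧ H i = Dec G O) ∨
        (∃ g : G, g ≠ 1 ∧ H i = (Subgroup.zpowers g).topologicalClosure) := by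
    intro i
    induction i using Fin.addCases with
    | left i =>
      induction i using Fin.addCases with
      | left i => exact Or.inl ⟨O i, hO i, by rw [hHL, hL]⟩
      | right j => exact Or.inr ⟨c j, (hc j).2.1, by rw [hHL, hR]⟩
    | right j =>
      refine Or.inr ⟨g j, ?_, by rw [hHR]⟩
      intro h
      obtain ⟨ψ, hψ, hne, -⟩ := hg j
      apply hne
      rw [h]
      exact J2.isCh_one hψ
  refine ⟨n + m + l, H, ?_, ?_, hT⟩
  · intro i
    rcases hT i with ⟨O', _, h⟩ | ⟨g', _, h⟩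
    · rw [h]; exact dec_closed Gd.cont O'
    · rw [h]; exact Subgroup.isClosed_topologicalClosure _
  · refine univ_of_h1_h2 H h1 fun co hco hcob => ?_
    have hDec : ∀ i, IsCob p (fun σ τ : Dec G (O i) => co σ τ) := by
      intro i
      refine J2.cob_mono hco ?_ (hcob (Fin.castAdd l (Fin.castAdd m i)))
      rw [hHL, hL]
    have hInv : ∀ j, IsCob p (fun σ τ : Subgroup.zpowers (c j) => co σ τ) := by
      intro j
      refine J2.cob_mono hco ?_ (hcob (Fin.castAdd l (Fin.natAdd n j)))
      rw [hHL, hR]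
      exact Subgroup.le_topologicalClosure _
    have hv : ∀ O' : ValuationSubring K, O' ≠ ⊤ → IsCob p (fun σ τ : Dec G O' => co σ τ) := by
      intro O' hO'
      by_cases hbot : Dec G O' = ⊥
      · exact J2.cob_mono hco hbot.le J2.cob_bot
      -- maximality
      have hex : ∃ i, res G (O i) ⊔ res G O' ≠ ⊤ := by
        by_contra hcon
        push Not at hcon
        apply hn
        refine ⟨Fin.snoc O O', ?_, ?_, ?_⟩
        · intro i
          induction i using Fin.lastCases with
          | last => simpa using hO'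
          | cast i => simpa using hO i
        · intro i
          induction i using Fin.lastCases with
          | last => simpa using hbot
          | cast i => simpa using hD i
        · intro i j hij
          induction i using Fin.lastCases with
          | last =>
            induction j using Fin.lastCases with
            | last => exact absurd rfl hij
            | cast j => simpa [sup_comm] using hcon j
          | cast i =>
            induction j using Fin.lastCases with
            | last => simpa using hcon i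
            | cast j =>
              have : i ≠ j := fun h => hij (by rw [h])
              simpa using hI i j this
      obtain ⟨i, hi⟩ := hex
      obtain ⟨g', hg'⟩ := dec_conj Gd (O i) O' hi
      exact J2.cob_conj hco (Dec G (O i)) (Dec G O') g' (fun σ hσ => (hg' σ).1 hσ) (hDec i)
    refine HP hco hv ?_
    intro g' hg2 hg1
    have hp2 : p = 2 := J1.eq_two Gd g' hg2 hg1
    subst hp2
    by_cases harch : ArchInv K g'
    · -- maximality
      have hex : ∃ j, (∀ x ∈ (Fx G : Set K), x ∈ (Pc (c j) : Set K) → x ∈ (Pc g' : Set K)) ∨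
          (∀ x ∈ (Fx G : Set K), x ∈ (Pc g' : Set K) → x ∈ (Pc (c j) : Set K)) := by
        by_contra hcon
        push Not at hcon
        apply hm
        refine ⟨Fin.snoc c g', ?_, ?_⟩
        · intro i
          induction i using Fin.lastCases with
          | last => simpa using ⟨hg2, hg1, harch⟩
          | cast i => simpa using hc i
        · intro i j hij
          induction i using Fin.lastCases with
          | last =>
            induction j using Fin.lastCases with
            | last => exact absurd rfl hij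
            | cast j => simpa using (hcon j).2
          | cast i =>
            induction j using Fin.lastCases with
            | last => simpa using (hcon i).1
            | cast j =>
              have : i ≠ j := fun h => hij (by rw [h])
              simpa using hd i j this
      obtain ⟨j, hj⟩ := hex
      have hs := involution_struct Gd g' hg2 hg1
      have hsj := involution_struct Gd (c j) (hc j).1 (hc j).2.1
      have hE : ∀ x ∈ (Fx G : Set K), x ∈ (Pc (c j) : Set K) ↔ x ∈ (Pc g' : Set K) := by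
        intro x hx
        have hnx : -x ∈ (Fx G : Set K) := (Fxs G K).neg_mem hx
        rcases hj with hj | hj
        · refine ⟨hj x hx, fun h => ?_⟩
          rcases hsj.2.1 x h.1 (hx _) with h' | h'
          · exact h'
          · exact absurd (hj _ hnx h') (hs.2.2.1 x h)
        · refine ⟨fun h => ?_, hj x hx⟩
          rcases hs.2.1 x h.1 (hx _) with h' | h'
          · exact h'
          · exact absurd (hj _ hnx h') (hsj.2.2.1 x h)
      obtain ⟨k, hk⟩ := arch_conj Gd (c j) g' (hc j).1 (hc j).2.1 hg2 hg1 (hc j).2.2 harch hE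
      refine J2.cob_conj hco (Subgroup.zpowers (c j)) (Subgroup.zpowers g') k ?_ (hInv j)
      intro σ hσ
      obtain ⟨e, rfl⟩ := hσ
      refine ⟨e, ?_⟩
      show c j ^ e = k⁻¹ * g' ^ e * k
      rw [hk, conj_zpow]
      group
    · obtain ⟨O', hO', hgO⟩ := nonarch_involution Gd g' hg2 hg1 harch
      have hle : Subgroup.zpowers g' ≤ Dec G O' := by
        rw [Subgroup.zpowers_le]
        exact zg_le_dec O' hO' hgO
      exact J2.cob_mono hco hle (hv O' hO')

end J2T

end Pool.Helper37.ETC
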